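import Pool.Agent.J6H70.AD.Stm5

/-!
# Leaf COL5: if two corrected paths nearly collide, then the uncorrected ones nearly collide
-/

set_option autoImplicit false

open Set Filter Topology MeasureTheory
open scoped ContDiff

noncomputable section

namespace Pool.Agent.J6H75.AD

open Pool.Agent.N980.TL Pool.Agent.J6H70.AD

variable {n N : ℕ} {K S : ℕ} {c1 C1 : ℝ} {X : (Fin n → ℝ) → (Fin n → ℝ) → ℝ → Fin n → ℝ}

/-- bounds of the elementary functions -/
lemma th_bd (h0 : S_FN) {s : ℝ} (h1 : -1 ≤ s) (h2 : s ≤ 1) : |th s| ≤ 1 ∧ |kap + (s - 1) - th s| ≤ 3 := by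
  obtain ⟨-, -, -, -, hth, -, h01, hlow, -, hkap, -⟩ := h0
  have hm : Monotone th := monotone_of_deriv_nonneg (fun s => (hth s).differentiableAt) fun s => by
    rw [(hth s).deriv]; exact (h01 s).1
  have a1 : 0 ≤ th s := by
    have := hm h1
    rwa [(hlow (-1) (by norm_num)).1] at this
  have a2 : th s ≤ 1 := (hm h2).trans hkap.2
  exact ⟨abs_le.2 ⟨by linarith, a2⟩, abs_le.2 ⟨by linarith [hkap.1], by linarith [hkap.2]⟩⟩

/-- the correction is a convex combination of two values of `X` -/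
lemma gm_pos (P v A : Fin n → ℝ) (s : ℝ) (i : Fin n) : gm X P v A s i = pos P v A s i +
    ((1 - tp s) * X v (P + s • v) s i +
      tp s * X (v + A) (P + v + kap • A + (s - 1) • (v + A)) (s - 1) i) := by
  unfold gm pos
  ring

lemma conv_le {t x y b : ℝ} (h0 : 0 ≤ t) (h1 : t ≤ 1) (hx : |x| ≤ b) (hy : |y| ≤ b) :
    |(1 - t) * x + t * y| ≤ b := by
  calc |(1 - t) * x + t * y| ≤ |(1 - t) * x| + |t * y| := abs_add_le _ _
    _ = (1 - t) * |x| + t * |y| := by
        rw [abs_mul, abs_mul, abs_of_nonneg h0, abs_of_nonneg (by linarith : (0 : ℝ) ≤ 1 - t)]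
    _ ≤ (1 - t) * b + t * b := by
        have := mul_le_mul_of_nonneg_left hx (by linarith : (0 : ℝ) ≤ 1 - t)
        have := mul_le_mul_of_nonneg_left hy h0
        linarith
    _ = b := by ring

theorem col5_all (h0 : S_FN) : S_COL5 := by
  intro n N D K S X hD c1 C1 hc
  obtain ⟨C, hC, hcont⟩ := hD.cont c1 C1 hc
  refine ⟨10 * C, by linarith, ?_⟩
  intro V V' P v A P' v' A' hV hVV hCV hA hA' hv hvA hv' hvA' hclose s e hs1 hs2 a hcol i
  have he : 0 ≤ e := (abs_nonneg _).trans (hcol i)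
  have t0 : 0 ≤ tp s := (h0.2.2.2.2.2.2.1 s).1
  have t1 : tp s ≤ 1 := (h0.2.2.2.2.2.2.1 s).2
  obtain ⟨b1, b2⟩ := th_bd h0 hs1 hs2
  have hV0 : 0 < V := by linarith
  have hV2 : 0 < V ^ 2 := by positivity
  have hV' : 1 ≤ V' := hV.trans hVV
  have nA : 0 ≤ ‖A‖ := norm_nonneg _
  have nA' : 0 ≤ ‖A'‖ := norm_nonneg _
  have nv : 0 ≤ ‖v' - v‖ := norm_nonneg _
  -- the two correction terms
  set ξ : Fin n → ℝ := fun i => (1 - tp s) * X v (P + s • v) s i +
      tp s * X (v + A) (P + v + kap • A + (s - 1) • (v + A)) (s - 1) i with hξ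
  set ξ' : Fin n → ℝ := fun i => (1 - tp s) * X v' (P' + s • v') s i +
      tp s * X (v' + A') (P' + v' + kap • A' + (s - 1) • (v' + A')) (s - 1) i with hξ'
  set z : Fin n → ℝ := fun i => pos P' v' A' s i - pos P v A s i - a i with hz
  have key : ∀ i, |z i| ≤ e + |ξ' i - ξ i| := by
    intro i
    have h := hcol i
    rw [gm_pos, gm_pos] at h
    have e1 : z i = (pos P' v' A' s i + ξ' i - (pos P v A s i + ξ i) - a i) - (ξ' i - ξ i) := by
      simp only [hz]
      ring
    rw [e1]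
    calc _ ≤ |pos P' v' A' s i + ξ' i - (pos P v A s i + ξ i) - a i| + |ξ' i - ξ i| := abs_sub _ _
      _ ≤ _ := by
        have : |pos P' v' A' s i + ξ' i - (pos P v A s i + ξ i) - a i| ≤ e := h
        linarith
  show |z i| ≤ _
  rcases le_or_gt (‖v' - v‖ + ‖A‖ + ‖A'‖) 1 with hQ | hQ
  · -- the velocities are close
    rw [min_eq_right hQ]
    obtain ⟨hw, hwA⟩ := hclose (by linarith)
    set Q : ℝ := ‖v' - v‖ + ‖A‖ + ‖A'‖ with hQd
    -- periodicity
    have p1 : X v (P + s • v) s = X v (fun i => (P + s • v) i + a i) s := by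
      have := hD.per v (P + s • v) s a 0
      rw [Int.cast_zero, add_zero] at this
      exact this.symm
    have p2 : X (v + A) (P + v + kap • A + (s - 1) • (v + A)) (s - 1) =
        X (v + A) (fun i => (P + v + kap • A + (s - 1) • (v + A)) i + a i) (s - 1) := by
      have := hD.per (v + A) (P + v + kap • A + (s - 1) • (v + A)) (s - 1) a 0
      rw [Int.cast_zero, add_zero] at this
      exact this.symm
    have nAA : ‖A' - A‖ ≤ ‖A'‖ + ‖A‖ := norm_sub_le _ _
    have d1 : ‖(P' + s • v') - (fun i => (P + s • v) i + (a i : ℝ))‖ ≤ ‖z‖ + 4 * Q := by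
      have e1 : (P' + s • v') - (fun i => (P + s • v) i + (a i : ℝ)) = z - th s • (A' - A) := by
        funext i
        simp only [hz, pos, Pi.sub_apply, Pi.add_apply, Pi.smul_apply, smul_eq_mul]
        ring
      rw [e1]
      refine (norm_sub_le _ _).trans ?_
      rw [norm_smul, Real.norm_eq_abs]
      have := mul_le_mul_of_nonneg_right b1 (norm_nonneg (A' - A))
      linarith
    have d2 : ‖(P' + v' + kap • A' + (s - 1) • (v' + A')) -
        (fun i => (P + v + kap • A + (s - 1) • (v + A)) i + (a i : ℝ))‖ ≤ ‖z‖ + 3 * Q := by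
      have e1 : (P' + v' + kap • A' + (s - 1) • (v' + A')) -
          (fun i => (P + v + kap • A + (s - 1) • (v + A)) i + (a i : ℝ)) =
          z + (kap + (s - 1) - th s) • (A' - A) := by
        funext i
        simp only [hz, pos, Pi.sub_apply, Pi.add_apply, Pi.smul_apply, smul_eq_mul]
        ring
      rw [e1]
      refine (norm_add_le _ _).trans ?_
      rw [norm_smul, Real.norm_eq_abs]
      have := mul_le_mul_of_nonneg_right b2 (norm_nonneg (A' - A))
      linarith
    have d3 : ‖v' + A' - (v + A)‖ ≤ Q := by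
      have e1 : v' + A' - (v + A) = (v' - v) + (A' - A) := by abel
      rw [e1]
      refine (norm_add_le _ _).trans ?_
      linarith
    have hCV2 : 0 ≤ C / V ^ 2 := by positivity
    have k1 : ∀ i, |X v' (P' + s • v') s i - X v (P + s • v) s i| ≤ C / V ^ 2 * (‖z‖ + 5 * Q) := by
      intro i
      rw [p1]
      refine ((hcont V v' v _ _ s hV hw hv i).2).trans ?_
      exact mul_le_mul_of_nonneg_left (by linarith) hCV2
    have k2 : ∀ i, |X (v' + A') (P' + v' + kap • A' + (s - 1) • (v' + A')) (s - 1) i -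
        X (v + A) (P + v + kap • A + (s - 1) • (v + A)) (s - 1) i| ≤ C / V ^ 2 * (‖z‖ + 5 * Q) := by
      intro i
      rw [p2]
      refine ((hcont V (v' + A') (v + A) _ _ (s - 1) hV hwA hvA i).2).trans ?_
      exact mul_le_mul_of_nonneg_left (by linarith) hCV2
    have k3 : ∀ i, |ξ' i - ξ i| ≤ C / V ^ 2 * (‖z‖ + 5 * Q) := by
      intro i
      have e1 : ξ' i - ξ i = (1 - tp s) * (X v' (P' + s • v') s i - X v (P + s • v) s i) +
          tp s * (X (v' + A') (P' + v' + kap • A' + (s - 1) • (v' + A')) (s - 1) i -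
            X (v + A) (P + v + kap • A + (s - 1) • (v + A)) (s - 1) i) := by
        simp only [hξ, hξ']
        ring
      rw [e1]
      exact conv_le t0 t1 (k1 i) (k2 i)
    have hQ0 : 0 ≤ Q := by positivity
    have k4 : C / V ^ 2 ≤ 1 / 2 := by
      rw [div_le_div_iff₀ hV2 (by norm_num)]
      nlinarith
    have k5 : ‖z‖ ≤ e + C / V ^ 2 * (‖z‖ + 5 * Q) := by
      refine (pi_norm_le_iff_of_nonneg ?_).2 fun i => ?_
      · have := mul_nonneg hCV2 (add_nonneg (norm_nonneg z) (mul_nonneg (by norm_num : (0 : ℝ) ≤ 5) hQ0))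
        linarith
      · rw [Real.norm_eq_abs]
        linarith [key i, k3 i]
    have k6 : C / V ^ 2 * ‖z‖ ≤ 1 / 2 * ‖z‖ := mul_le_mul_of_nonneg_right k4 (norm_nonneg z)
    have k7 : |z i| ≤ ‖z‖ := by
      have := norm_le_pi_norm z i
      rwa [Real.norm_eq_abs] at this
    have k8 : 10 * C / V ^ 2 * Q = 10 * (C / V ^ 2 * Q) := by ring
    rw [k8]
    have k9 : C / V ^ 2 * (‖z‖ + 5 * Q) = C / V ^ 2 * ‖z‖ + 5 * (C / V ^ 2 * Q) := by ring
    rw [k9] at k5
    linarith
  · rw [min_eq_left hQ.le]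
    have hle : C / V' ^ 2 ≤ C / V ^ 2 := by
      apply div_le_div_of_nonneg_left (by linarith) hV2
      exact pow_le_pow_left₀ hV0.le hVV 2
    have k1 : |ξ i| ≤ C / V ^ 2 := conv_le t0 t1 (hcont V v v _ (P + s • v) s hV hv hv i).1
      (hcont V (v + A) (v + A) _ (P + s • v) _ hV hvA hvA i).1
    have k2 : |ξ' i| ≤ C / V' ^ 2 := conv_le t0 t1 (hcont V' v' v' _ (P + s • v) s hV' hv' hv' i).1
      (hcont V' (v' + A') (v' + A') _ (P + s • v) _ hV' hvA' hvA' i).1
    have k3 := key i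
    have k4 : |ξ' i - ξ i| ≤ |ξ' i| + |ξ i| := abs_sub _ _
    have k5 : 10 * C / V ^ 2 = 10 * (C / V ^ 2) := by ring
    have k6 : 0 ≤ C / V ^ 2 := by positivity
    rw [k5]
    linarith

end Pool.Agent.J6H75.AD
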