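import Pool.Agent.J6H70.AD.Stm5
import Pool.Agent.N980.TL.Gam

/-!
# Leaf GAM5: the path of one step, corrections of arbitrary order
-/

set_option autoImplicit false

open Set Filter Topology MeasureTheory
open scoped ContDiff

noncomputable section

namespace Pool.Agent.J6H75.AD

open Pool.Agent.N980.TL Pool.Agent.N980.TL.Gam_ Pool.Agent.J6H70.AD

/-- the parameters -/
structure Par {n : ℕ} (S : ℕ) (c1 C1 : ℝ) where
  V : ℝ
  P : Fin n → ℝ
  v : Fin n → ℝ
  A : Fin n → ℝ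
  hV : 1 ≤ V
  hA : ‖A‖ ≤ 1
  h1 : NRS S c1 C1 V v
  h2 : NRS S c1 C1 V (v + A)

variable {n N : ℕ} {S : ℕ} {c1 C1 : ℝ} (X : (Fin n → ℝ) → (Fin n → ℝ) → ℝ → Fin n → ℝ)

def xiF (i : Fin n) (x : Par (n := n) S c1 C1) (s : ℝ) : ℝ := X x.v (x.P + s • x.v) s i

def dxF (i : Fin n) (x : Par (n := n) S c1 C1) (s : ℝ) : ℝ :=
  X (x.v + x.A) (x.P + x.v + kap • x.A + (s - 1) • (x.v + x.A)) (s - 1) i - X x.v (x.P + s • x.v) s i

def EF (i : Fin n) (x : Par (n := n) S c1 C1) (s : ℝ) : ℝ := x.A i * th s + tp s * dxF X i x s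

lemma gam_eq (x : Par (n := n) S c1 C1) (s : ℝ) (i : Fin n) : gm X x.P x.v x.A s i =
    x.P i + s * x.v i + (xiF X i x s + EF X i x s) := by
  unfold gm xiF EF dxF
  ring

lemma phase_add (D : Trig n N) (μ : Fin N) (P v a : Fin n → ℝ) (s : ℝ) :
    D.phase μ (fun j => P j + s * v j + a j) s =
      D.pl μ P v s + 2 * Real.pi * ∑ j, (D.k μ j : ℝ) * a j := by
  unfold Trig.phase Trig.pl Trig.fr
  have e : ∑ i, (D.k μ i : ℝ) * (P i + s * v i + a i) =
      ∑ i, (D.k μ i : ℝ) * P i + s * (∑ i, (D.k μ i : ℝ) * v i) + ∑ i, (D.k μ i : ℝ) * a i := by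
    rw [Finset.mul_sum, ← Finset.sum_add_distrib, ← Finset.sum_add_distrib]
    exact Finset.sum_congr rfl fun i _ => by ring
  rw [e]
  ring

lemma pV (x : Par (n := n) S c1 C1) : 1 ≤ x.V := x.hV

lemma inv_le (x : Par (n := n) S c1 C1) (k : ℕ) : 1 / x.V ^ k ≤ 1 := by
  have h := one_le_pow₀ (n := k) x.hV
  rw [div_le_one (by linarith)]
  exact h

lemma nA (x : Par (n := n) S c1 C1) : 0 ≤ ‖x.A‖ := norm_nonneg _

variable {X} {D : Trig n N} {K : ℕ}

lemma hX (hD : Corr D K S X) (hc : 0 < c1) (i : Fin n) :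
    B 4 (Par.V : Par (n := n) S c1 C1 → ℝ) (fun x => 1 / x.V ^ 2) (xiF X i) := by
  obtain ⟨C, hC, h⟩ := hD.xi c1 C1 hc
  refine ⟨C, by linarith, fun x => ?_⟩
  rw [mul_one_div]
  exact (h x.V x.P x.v x.hV x.h1 i).1

lemma hR (hD : Corr D K S X) (hc : 0 < c1) (i : Fin n) :
    B 2 (Par.V : Par (n := n) S c1 C1 → ℝ) (fun x => 1 / x.V ^ K) (fun x s =>
      deriv (deriv (xiF X i x)) s -
      D.grad (fun j => x.P j + s * x.v j + xiF X j x s) s i) := by
  obtain ⟨C, hC, h⟩ := hD.xi c1 C1 hc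
  refine ⟨C, by linarith, fun x => ?_⟩
  rw [mul_one_div]
  exact (h x.V x.P x.v x.hV x.h1 i).2

lemma hL (h0 : S_FN) (hD : Corr D K S X) (hc : 0 < c1) (i : Fin n) :
    B 4 (Par.V : Par (n := n) S c1 C1 → ℝ) (fun x => ‖x.A‖ / x.V ^ 2) (dxF X i) := by
  obtain ⟨C, hC, h⟩ := hD.lip c1 C1 hc
  obtain ⟨k1, k2⟩ := h0.2.2.2.2.2.2.2.2.2.1
  refine ⟨C, by linarith, fun x => ?_⟩
  rw [← mul_div_assoc]
  exact h x.V kap x.P x.v x.A x.hV k1 k2 x.hA x.h1 x.h2 i

lemma hTX (h0 : S_FN) (h1 : S_CLS) (hD : Corr D K S X) (hc : 0 < c1) (i : Fin n) :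
    B 4 (Par.V : Par (n := n) S c1 C1 → ℝ) (fun x => ‖x.A‖ / x.V ^ 2) (fun x s => tp s * dxF X i x s) := by
  have ht : B 4 (Par.V : Par (n := n) S c1 C1 → ℝ) (fun _ => 1) (fun _ => tp) := B.fixed pV h0.2.1
  have := ht.mul h1 pV (fun _ => zero_le_one) (fun x => div_nonneg (nA x) (by positivity))
    (hL (C1 := C1) h0 hD hc i)
  refine this.mono h1 pV 1 zero_le_one fun x => ?_
  exact le_rfl

lemma hE (h0 : S_FN) (h1 : S_CLS) (hD : Corr D K S X) (hc : 0 < c1) (i : Fin n) :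
    B 4 (Par.V : Par (n := n) S c1 C1 → ℝ) (fun x => ‖x.A‖) (EF X i) := by
  have ht : B 4 (Par.V : Par (n := n) S c1 C1 → ℝ) (fun _ => 1) (fun _ => th) := B.fixed pV h0.1
  have h := ht.pmul h1 pV (σ := fun x => ‖x.A‖) (fun x => x.A i) (fun x => norm_le_pi_norm x.A i)
    (fun _ => zero_le_one)
  have h' := h.mono (σ := fun x => ‖x.A‖) h1 pV 1 zero_le_one (fun x => by simp)
  have h'' := (hTX (C1 := C1) h0 h1 hD hc i).mono (σ := fun x => ‖x.A‖) h1 pV 1 zero_le_one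
    (fun x => by
      have := mul_le_mul_of_nonneg_left (inv_le x 2) (nA x)
      rw [mul_one_div, mul_one] at this
      linarith)
  exact h'.add h1 h''

lemma hE2 (h0 : S_FN) (h1 : S_CLS) (hD : Corr D K S X) (hc : 0 < c1) (i : Fin n) :
    B 2 (Par.V : Par (n := n) S c1 C1 → ℝ) (fun x => ‖x.A‖) (fun x => deriv (deriv (EF X i x))) := by
  have ht : B 2 (Par.V : Par (n := n) S c1 C1 → ℝ) (fun _ => 1) (fun _ => et) := B.fixed pV h0.2.2.1
  have h := ht.pmul h1 pV (σ := fun x => ‖x.A‖) (fun x => x.A i) (fun x => norm_le_pi_norm x.A i)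
    (fun _ => zero_le_one)
  have h' := h.mono (σ := fun x => ‖x.A‖) h1 pV 1 zero_le_one (fun x => by simp)
  have h'' := ((hTX (C1 := C1) h0 h1 hD hc i).dd h1).mono (σ := fun x => ‖x.A‖) h1 pV 1 zero_le_one
    (fun x => by
      have : x.V ^ 2 ≠ 0 := by have := x.hV; positivity
      rw [div_mul_cancel₀ _ this, one_mul])
  have h3' := h'.add h1 h''
  have e : (fun (x : Par (n := n) S c1 C1) => deriv (deriv (EF X i x))) = fun x s =>
      x.A i * et s + deriv (deriv (fun s => tp s * dxF X i x s)) s := by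
    funext x
    have hs : ContDiff ℝ ∞ (fun s => tp s * dxF X i x s) := (hTX (C1 := C1) h0 h1 hD hc i).sm x
    have hd : Differentiable ℝ (fun s => tp s * dxF X i x s) :=
      hs.differentiable (by simp)
    have hd2 : Differentiable ℝ (deriv fun s => tp s * dxF X i x s) :=
      (sm_deriv hs).differentiable (by simp)
    have e1 : deriv (EF X i x) = fun s =>
        x.A i * tp s + deriv (fun s => tp s * dxF X i x s) s := by
      funext s
      exact (((h0.2.2.2.2.1 s).const_mul (x.A i)).add (hd s).hasDerivAt).deriv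
    rw [e1]
    funext s
    exact (((h0.2.2.2.2.2.1 s).const_mul (x.A i)).add (hd2 s).hasDerivAt).deriv
  rw [e]
  exact h3'

/-- the phase of the corrected line -/
def phi (D : Trig n N) (X : (Fin n → ℝ) → (Fin n → ℝ) → ℝ → Fin n → ℝ) (μ : Fin N)
    (x : Par (n := n) S c1 C1) (s : ℝ) : ℝ :=
  D.pl μ x.P x.v s + 2 * Real.pi * ∑ j, (D.k μ j : ℝ) * xiF X j x s

def eta (D : Trig n N) (X : (Fin n → ℝ) → (Fin n → ℝ) → ℝ → Fin n → ℝ) (μ : Fin N)
    (x : Par (n := n) S c1 C1) (s : ℝ) : ℝ :=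
  2 * Real.pi * ∑ j, (D.k μ j : ℝ) * EF X j x s

lemma one_mono (h1 : S_CLS) {m : ℕ} {F : Par (n := n) S c1 C1 → ℝ → ℝ}
    (h : B m (Par.V : Par (n := n) S c1 C1 → ℝ) (fun _ => 1 * 1) F) :
    B m (Par.V : Par (n := n) S c1 C1 → ℝ) (fun _ => 1) F :=
  h.mono h1 pV 1 zero_le_one fun _ => le_rfl

lemma fr_le (D : Trig n N) (μ : Fin N) (x : Par (n := n) S c1 C1) :
    |D.fr μ x.v| ≤ max 1 (2 * Real.pi * ((∑ i, |(D.k μ i : ℝ)|) * |C1| + |(D.m μ : ℝ)|)) * x.V := by
  have hV := x.hV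
  have hp := Real.pi_pos
  unfold Trig.fr
  have h1 : |∑ i, (D.k μ i : ℝ) * x.v i| ≤ (∑ i, |(D.k μ i : ℝ)|) * (|C1| * x.V) := by
    refine (Finset.abs_sum_le_sum_abs _ _).trans ?_
    rw [Finset.sum_mul]
    refine Finset.sum_le_sum fun i _ => ?_
    rw [abs_mul]
    refine mul_le_mul_of_nonneg_left ?_ (abs_nonneg _)
    have h2 := norm_le_pi_norm x.v i
    rw [Real.norm_eq_abs] at h2
    have h3 := x.h1.2
    have h4 : C1 * x.V ≤ |C1| * x.V := mul_le_mul_of_nonneg_right (le_abs_self _) (by linarith)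
    linarith
  have h2 : |(D.m μ : ℝ)| ≤ |(D.m μ : ℝ)| * x.V := le_mul_of_one_le_right (abs_nonneg _) hV
  rw [abs_mul, abs_of_pos (by positivity : 0 < 2 * Real.pi)]
  calc 2 * Real.pi * |∑ i, (D.k μ i : ℝ) * x.v i + D.m μ|
      ≤ 2 * Real.pi * ((∑ i, |(D.k μ i : ℝ)|) * (|C1| * x.V) + |(D.m μ : ℝ)| * x.V) := by
        refine mul_le_mul_of_nonneg_left ?_ (by positivity)
        exact (abs_add_le _ _).trans (add_le_add h1 h2)
    _ = 2 * Real.pi * ((∑ i, |(D.k μ i : ℝ)|) * |C1| + |(D.m μ : ℝ)|) * x.V := by ring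
    _ ≤ _ := mul_le_mul_of_nonneg_right (le_max_right _ _) (by linarith)

lemma hphi (h1 : S_CLS) (hD : Corr D K S X) (hc : 0 < c1) (μ : Fin N) :
    B 2 (Par.V : Par (n := n) S c1 C1 → ℝ) (fun _ => 1) (fun x s => Real.sin (phi D X μ x s)) ∧
    B 2 (Par.V : Par (n := n) S c1 C1 → ℝ) (fun _ => 1) (fun x s => Real.cos (phi D X μ x s)) := by
  have hz : B 2 (Par.V : Par (n := n) S c1 C1 → ℝ) (fun _ => 1)
      (fun x s => 2 * Real.pi * ∑ j, (D.k μ j : ℝ) * xiF X j x s) := by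
    refine B.cmul h1 pV (2 * Real.pi) (B.sum h1 pV Finset.univ _ fun j => ?_)
    refine B.cmul h1 pV _ ?_
    refine ((hX (C1 := C1) hD hc j).le (by norm_num)).mono h1 pV 1 zero_le_one fun x => ?_
    have := inv_le x 2
    linarith
  have hpl : B 2 (Par.V : Par (n := n) S c1 C1 → ℝ) (fun _ => 1)
        (fun x s => Real.sin (D.pl μ x.P x.v s)) ∧
      B 2 (Par.V : Par (n := n) S c1 C1 → ℝ) (fun _ => 1)
        (fun x s => Real.cos (D.pl μ x.P x.v s)) := by
    unfold Trig.pl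
    exact B.lin h1 pV _ (le_max_left _ _) (fun x => D.fr μ x.v) _ fun x => fr_le D μ x
  obtain ⟨ps, pc⟩ := hpl
  obtain ⟨zs, zc⟩ := hz.small h1 pV (fun _ => zero_le_one) (fun _ => le_rfl)
  have zc' := zc.add h1 (B.const h1 pV (ρ := fun _ => 1) (fun _ => 1) 1 zero_le_one
    (fun x => by simp))
  have a1 := one_mono h1 (ps.mul h1 pV (fun _ => zero_le_one) (fun _ => zero_le_one) zc')
  have a2 := one_mono h1 (pc.mul h1 pV (fun _ => zero_le_one) (fun _ => zero_le_one) zs)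
  have a3 := one_mono h1 (pc.mul h1 pV (fun _ => zero_le_one) (fun _ => zero_le_one) zc')
  have a4 := one_mono h1 (ps.mul h1 pV (fun _ => zero_le_one) (fun _ => zero_le_one) zs)
  refine ⟨?_, ?_⟩
  · have := a1.add h1 a2
    convert this using 3 with x s
    rw [phi, Real.sin_add]
    ring
  · have := a3.sub h1 pV a4
    convert this using 3 with x s
    rw [phi, Real.cos_add]
    ring

lemma heta (h0 : S_FN) (h1 : S_CLS) (hD : Corr D K S X) (hc : 0 < c1) (μ : Fin N) :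
    B 2 (Par.V : Par (n := n) S c1 C1 → ℝ) (fun x => ‖x.A‖) (eta D X μ) := by
  refine B.cmul h1 pV (2 * Real.pi) (B.sum h1 pV Finset.univ _ fun j => ?_)
  refine B.cmul h1 pV _ ?_
  exact (hE (C1 := C1) h0 h1 hD hc j).le (by norm_num)

lemma hDd (h0 : S_FN) (h1 : S_CLS) (hD : Corr D K S X) (hc : 0 < c1) (μ : Fin N) :
    B 2 (Par.V : Par (n := n) S c1 C1 → ℝ) (fun x => ‖x.A‖)
      (fun x s => Real.sin (phi D X μ x s + eta D X μ x s) - Real.sin (phi D X μ x s)) := by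
  obtain ⟨fs, fc⟩ := hphi (C1 := C1) h1 hD hc μ
  obtain ⟨es, ec⟩ := (heta (C1 := C1) h0 h1 hD hc μ).small h1 pV nA (fun x => x.hA)
  have a1 := (fs.mul h1 pV (fun _ => zero_le_one) nA ec).mono (σ := fun x => ‖x.A‖) h1 pV 1
    zero_le_one fun x => le_rfl
  have a2 := (fc.mul h1 pV (fun _ => zero_le_one) nA es).mono (σ := fun x => ‖x.A‖) h1 pV 1
    zero_le_one fun x => le_rfl
  have := a1.add h1 a2
  convert this using 3 with x s
  rw [Real.sin_add]
  ring

lemma hG (h0 : S_FN) (h1 : S_CLS) (hD : Corr D K S X) (hc : 0 < c1) (i : Fin n) :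
    B 2 (Par.V : Par (n := n) S c1 C1 → ℝ) (fun x => ‖x.A‖)
      (fun x s => D.grad (fun j => gm X x.P x.v x.A s j) s i -
      D.grad (fun j => x.P j + s * x.v j + xiF X j x s) s i) := by
  have h := B.cmul h1 pV (-1) (B.sum h1 pV Finset.univ _ fun μ =>
    B.cmul h1 pV (D.c μ * (2 * Real.pi * D.k μ i)) (hDd (C1 := C1) h0 h1 hD hc μ))
  convert h using 3 with x s
  unfold Trig.grad
  have e1 : ∀ μ, D.phase μ (fun j => gm X x.P x.v x.A s j) s = phi D X μ x s + eta D X μ x s := by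
    intro μ
    simp only [gam_eq X x s]
    rw [phase_add D μ x.P x.v (fun j => xiF X j x s + EF X j x s) s]
    unfold phi eta
    simp only [mul_add, Finset.sum_add_distrib]
    ring
  have e2 : ∀ μ, D.phase μ (fun j => x.P j + s * x.v j + xiF X j x s) s = phi D X μ x s := by
    intro μ
    rw [phase_add D μ x.P x.v (fun j => xiF X j x s) s]
    rfl
  simp only [e1, e2]
  rw [neg_one_mul, neg_sub_neg, ← neg_sub, ← Finset.sum_sub_distrib]
  congr 1
  exact Finset.sum_congr rfl fun μ _ => by ring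

lemma gam_d (h0 : S_FN) (h1 : S_CLS) (hD : Corr D K S X) (hc : 0 < c1) (i : Fin n)
    (x : Par (n := n) S c1 C1) : (deriv fun s => gm X x.P x.v x.A s i) = fun s =>
      x.v i + (deriv (xiF X i x) s + deriv (EF X i x) s) := by
  have d1 : Differentiable ℝ (xiF X i x) :=
    ((hX (C1 := C1) hD hc i).sm x).differentiable (by simp)
  have d2 : Differentiable ℝ (EF X i x) :=
    ((hE (C1 := C1) h0 h1 hD hc i).sm x).differentiable (by simp)
  have e : (fun s => gm X x.P x.v x.A s i) = fun s =>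
      x.P i + s * x.v i + (xiF X i x s + EF X i x s) := by
    funext s
    exact gam_eq X x s i
  rw [e]
  funext s
  have := (((hasDerivAt_id s).mul_const (x.v i)).const_add (x.P i)).add
    ((d1 s).hasDerivAt.add (d2 s).hasDerivAt)
  have h := this.deriv
  rw [one_mul] at h
  exact h

lemma gam_dd (h0 : S_FN) (h1 : S_CLS) (hD : Corr D K S X) (hc : 0 < c1) (i : Fin n)
    (x : Par (n := n) S c1 C1) : (deriv (deriv fun s => gm X x.P x.v x.A s i)) = fun s =>
      deriv (deriv (xiF X i x)) s + deriv (deriv (EF X i x)) s := by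
  have d1 : Differentiable ℝ (deriv (xiF X i x)) :=
    (sm_deriv ((hX (C1 := C1) hD hc i).sm x)).differentiable (by simp)
  have d2 : Differentiable ℝ (deriv (EF X i x)) :=
    (sm_deriv ((hE (C1 := C1) h0 h1 hD hc i).sm x)).differentiable (by simp)
  rw [gam_d h0 h1 hD hc i x]
  funext s
  exact (((d1 s).hasDerivAt.add (d2 s).hasDerivAt).const_add (x.v i)).deriv

lemma gam_sm (h0 : S_FN) (h1 : S_CLS) (hD : Corr D K S X) (hc : 0 < c1) (i : Fin n)
    (x : Par (n := n) S c1 C1) : ContDiff ℝ ∞ fun s => gm X x.P x.v x.A s i := by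
  have e : (fun s => gm X x.P x.v x.A s i) = fun s =>
      x.P i + s * x.v i + (xiF X i x s + EF X i x s) := by
    funext s
    exact gam_eq X x s i
  rw [e]
  exact (contDiff_const.add (contDiff_id.mul contDiff_const)).add
    (((hX (C1 := C1) hD hc i).sm x).add ((hE (C1 := C1) h0 h1 hD hc i).sm x))

lemma K1 (h0 : S_FN) (h1 : S_CLS) (hD : Corr D K S X) (hc : 0 < c1) (i : Fin n) :
    B 2 (Par.V : Par (n := n) S c1 C1 → ℝ) (fun x => x.V)
      (fun x => deriv fun s => gm X x.P x.v x.A s i) := by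
  have e : (fun (x : Par (n := n) S c1 C1) => deriv fun s => gm X x.P x.v x.A s i) = fun x s =>
      x.v i + (deriv (xiF X i x) s + deriv (EF X i x) s) := by
    funext x
    exact gam_d h0 h1 hD hc i x
  rw [e]
  refine (B.const h1 pV (fun x => x.v i) |C1| (abs_nonneg _) fun x => ?_).add h1 (B.add h1 ?_ ?_)
  · have a1 := norm_le_pi_norm x.v i
    have a2 := x.h1.2
    have a3 : C1 * x.V ≤ |C1| * x.V :=
      mul_le_mul_of_nonneg_right (le_abs_self _) (by linarith [x.hV])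
    rw [Real.norm_eq_abs] at a1
    linarith
  · refine (((hX (C1 := C1) hD hc i).le (by norm_num : 3 ≤ 4)).d).mono h1 pV 1 zero_le_one
      fun x => ?_
    have a1 := inv_le x 2
    exact mul_le_mul_of_nonneg_right a1 (by linarith [x.hV])
  · refine (((hE (C1 := C1) h0 h1 hD hc i).le (by norm_num : 3 ≤ 4)).d).mono h1 pV 1 zero_le_one
      fun x => ?_
    exact mul_le_mul_of_nonneg_right x.hA (by linarith [x.hV])

lemma K2 (h0 : S_FN) (hD : Corr D K S X) (hc : 0 < c1) (i : Fin n) :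
    ∃ C : ℝ, 0 ≤ C ∧ ∀ x : Par (n := n) S c1 C1, ∀ s ∈ Icc (-1 : ℝ) 2,
      |gm X x.P x.v x.A s i - (x.P i + s * x.v i + th s * x.A i)| ≤ C / x.V ^ 2 := by
  obtain ⟨C, hC, h⟩ := hX (C1 := C1) hD hc i
  obtain ⟨C', hC', h'⟩ := hL (C1 := C1) h0 hD hc i
  refine ⟨C + C', by positivity, fun x s hs => ?_⟩
  have a1 := (h x).2 0 (by norm_num) s hs
  have a2 := (h' x).2 0 (by norm_num) s hs
  rw [iteratedDeriv_zero, pow_zero, mul_one] at a1 a2
  have e : gm X x.P x.v x.A s i - (x.P i + s * x.v i + th s * x.A i) =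
      xiF X i x s + tp s * dxF X i x s := by
    unfold gm xiF dxF
    ring
  rw [e]
  obtain ⟨t1, t2⟩ := h0.2.2.2.2.2.2.1 s
  have hV := x.hV
  have hA := x.hA
  have b1 : |tp s * dxF X i x s| ≤ |dxF X i x s| := by
    rw [abs_mul, abs_of_nonneg t1]
    exact mul_le_of_le_one_left (abs_nonneg _) t2
  have b2 : C' * (‖x.A‖ / x.V ^ 2) ≤ C' / x.V ^ 2 := by
    rw [div_eq_mul_one_div C']
    refine mul_le_mul_of_nonneg_left ?_ hC'
    exact div_le_div_of_nonneg_right hA (by positivity)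
  have b3 : C * (1 / x.V ^ 2) = C / x.V ^ 2 := by rw [mul_one_div]
  calc _ ≤ _ := abs_add_le _ _
    _ ≤ C / x.V ^ 2 + C' / x.V ^ 2 := by linarith
    _ = _ := by ring

lemma K3 (h0 : S_FN) (h1 : S_CLS) (hD : Corr D K S X) (hc : 0 < c1) (i : Fin n) :
    B 2 (Par.V : Par (n := n) S c1 C1 → ℝ) (fun x => ‖x.A‖ + 1 / x.V ^ K) (fun x s =>
      deriv (deriv fun s => gm X x.P x.v x.A s i) s -
        D.grad (fun j => gm X x.P x.v x.A s j) s i) := by
  have pos1 : ∀ x : Par (n := n) S c1 C1, 0 ≤ 1 / x.V ^ K := fun x => by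
    have := x.hV
    positivity
  have a1 := (hR (C1 := C1) hD hc i).mono
    (σ := fun x => ‖x.A‖ + 1 / x.V ^ K) h1 pV 1 zero_le_one fun x => by
      have := nA x
      linarith
  have a2 := (hE2 (C1 := C1) h0 h1 hD hc i).mono
    (σ := fun x => ‖x.A‖ + 1 / x.V ^ K) h1 pV 1 zero_le_one fun x => by
      have := pos1 x
      linarith
  have a3 := (hG (C1 := C1) h0 h1 hD hc i).mono
    (σ := fun x => ‖x.A‖ + 1 / x.V ^ K) h1 pV 1 zero_le_one fun x => by
      have := pos1 x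
      linarith
  have := (a1.add h1 a2).sub h1 pV a3
  convert this using 3 with x s
  rw [gam_dd h0 h1 hD hc i x]
  ring

/-- the last clause: the velocity -/
lemma K4 (h0 : S_FN) (hD : Corr D K S X) (hc : 0 < c1) (i : Fin n) :
    ∃ C : ℝ, 0 ≤ C ∧ ∀ x : Par (n := n) S c1 C1, ∀ s, 0 ≤ s → s ≤ 1 →
      |deriv (fun s => gm X x.P x.v x.A s i) s - (x.v i + tp s * x.A i)| ≤ C / x.V := by
  obtain ⟨hth', htp', het, -, hth, htp, h01, -, -, hkap, -⟩ := h0
  obtain ⟨Cx, hCx, hx⟩ := hD.xi c1 C1 hc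
  obtain ⟨Cl, hCl, hl⟩ := hD.lip c1 C1 hc
  obtain ⟨Ke, hKe⟩ := (isCompact_Icc (a := (0 : ℝ)) (b := 1)).exists_bound_of_continuousOn
    het.continuous.continuousOn
  have hKe0 : 0 ≤ Ke := (norm_nonneg _).trans (hKe 0 ⟨le_rfl, zero_le_one⟩)
  refine ⟨Cx + Ke * Cl + Cl, by positivity, fun x s hs0 hs1 => ?_⟩
  obtain ⟨V, P, v, A, hV, hA, h1, h2⟩ := x
  simp only
  have hsI : s ∈ Icc (-1 : ℝ) 2 := ⟨by linarith, by linarith⟩
  have x1 := (hx V P v hV h1 i).1
  have y1 := hl V kap P v A hV hkap.1 hkap.2 hA h1 h2 i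
  set X' : ℝ → ℝ := fun s => X v (P + s • v) s i with hX'
  set Y : ℝ → ℝ := fun s => X (v + A) (P + v + kap • A + (s - 1) • (v + A)) (s - 1) i -
    X v (P + s • v) s i with hY
  have dX : HasDerivAt X' (deriv X' s) s := (x1.1.differentiable (by simp) s).hasDerivAt
  have dY : HasDerivAt Y (deriv Y s) s := (y1.1.differentiable (by simp) s).hasDerivAt
  have e : (fun s => gm X P v A s i) = fun s => P i + s * v i + th s * A i + X' s + tp s * Y s :=
    rfl
  have hd : HasDerivAt (fun s => P i + s * v i + th s * A i + X' s + tp s * Y s)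
      (v i + tp s * A i + deriv X' s + (et s * Y s + tp s * deriv Y s)) s := by
    have a1 := ((((hasDerivAt_id s).mul_const (v i)).const_add (P i)).add
      ((hth s).mul_const (A i))).add dX
    have a2 := a1.add ((htp s).mul dY)
    refine a2.congr_deriv ?_
    ring
  rw [e, hd.deriv]
  have b1 : |deriv X' s| ≤ Cx / V ^ 2 * V ^ 1 := by
    have := x1.2 1 (by norm_num) s hsI
    rwa [iteratedDeriv_one] at this
  have b2 : |Y s| ≤ Cl * ‖A‖ / V ^ 2 * V ^ 0 := by
    have := y1.2 0 (by norm_num) s hsI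
    rwa [iteratedDeriv_zero] at this
  have b3 : |deriv Y s| ≤ Cl * ‖A‖ / V ^ 2 * V ^ 1 := by
    have := y1.2 1 (by norm_num) s hsI
    rwa [iteratedDeriv_one] at this
  have b4 : |et s| ≤ Ke := hKe s ⟨hs0, hs1⟩
  have hV0 : 0 < V := by linarith
  have c1 : Cx / V ^ 2 * V ^ 1 = Cx / V := by field_simp
  have c3 : Cl * ‖A‖ / V ^ 2 * V ^ 1 ≤ Cl / V := by
    have : Cl * ‖A‖ / V ^ 2 * V ^ 1 = Cl * ‖A‖ / V := by field_simp
    rw [this]
    gcongr
    nlinarith
  have c2 : Cl * ‖A‖ / V ^ 2 * V ^ 0 ≤ Cl / V := by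
    rw [pow_zero, mul_one]
    have h1 : Cl * ‖A‖ ≤ Cl := by nlinarith
    have h2 : V ≤ V ^ 2 := by nlinarith
    gcongr
  have e2 : v i + tp s * A i + deriv X' s + (et s * Y s + tp s * deriv Y s) -
      (v i + tp s * A i) = deriv X' s + (et s * Y s + tp s * deriv Y s) := by ring
  rw [e2]
  have d1 : |et s * Y s| ≤ Ke * (Cl / V) := by
    rw [abs_mul]; exact mul_le_mul b4 (b2.trans c2) (abs_nonneg _) hKe0
  have d2 : |tp s * deriv Y s| ≤ Cl / V := by
    rw [abs_mul, abs_of_nonneg (h01 s).1]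
    exact (mul_le_of_le_one_left (abs_nonneg _) (h01 s).2).trans (b3.trans c3)
  calc |deriv X' s + (et s * Y s + tp s * deriv Y s)|
      ≤ |deriv X' s| + (|et s * Y s| + |tp s * deriv Y s|) :=
        (abs_add_le _ _).trans (add_le_add le_rfl (abs_add_le _ _))
    _ ≤ Cx / V + (Ke * (Cl / V) + Cl / V) := by
        rw [c1] at b1
        exact add_le_add b1 (add_le_add d1 d2)
    _ = (Cx + Ke * Cl + Cl) / V := by ring

theorem gam5_all (h0 : S_FN) (h1 : S_CLS) : S_GAM5 := by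
  intro n N D K S X hD c1 C1 hc
  have q1 := fun i => K1 (C1 := C1) h0 h1 hD hc i
  have q2 := fun i => K2 (C1 := C1) h0 hD hc i
  have q3 := fun i => K3 (C1 := C1) h0 h1 hD hc i
  have q4 := fun i => K4 (C1 := C1) h0 hD hc i
  choose A1 A1p A1h using q1
  choose A2 A2p A2h using q2
  choose A3 A3p A3h using q3
  choose A4 A4p A4h using q4
  have hi : ∀ i, A1 i + A2 i + A3 i + A4 i ≤ ∑ j, (A1 j + A2 j + A3 j + A4 j) := fun i =>
    Finset.single_le_sum (f := fun j => A1 j + A2 j + A3 j + A4 j)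
      (fun j _ => by
        have := A1p j; have := A2p j; have := A3p j; have := A4p j; positivity)
      (Finset.mem_univ i)
  have hn : 0 ≤ ∑ j, (A1 j + A2 j + A3 j + A4 j) :=
    Finset.sum_nonneg fun j _ => by
      have := A1p j; have := A2p j; have := A3p j; have := A4p j; positivity
  refine ⟨1 + ∑ j, (A1 j + A2 j + A3 j + A4 j), by linarith, ?_⟩
  intro V P v A hV hA n1 n2 i
  let x : Par (n := n) S c1 C1 := ⟨V, P, v, A, hV, hA, n1, n2⟩
  have p1 := A1p i
  have p2 := A2p i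
  have p3 := A3p i
  have p4 := A4p i
  have hi' := hi i
  refine ⟨gam_sm h0 h1 hD hc i x, ?_, ?_, ?_, ?_⟩
  · refine h1.1 _ _ _ _ _ (by linarith) ?_ (A1h i x)
    exact mul_le_mul_of_nonneg_right (by linarith) (by linarith)
  · intro s hs
    refine (A2h i x s hs).trans ?_
    exact div_le_div_of_nonneg_right (by linarith) (by positivity)
  · refine h1.1 _ _ _ _ _ (by linarith) ?_ (A3h i x)
    exact mul_le_mul_of_nonneg_right (by linarith) (by positivity)
  · intro s hs0 hs1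
    refine (A4h i x s hs0 hs1).trans ?_
    exact div_le_div_of_nonneg_right (by linarith) (by positivity)

end Pool.Agent.J6H75.AD
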